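import Pool.Agent.T6.H21.JD.Interior
import Pool.Agent.T6.H21.JD.Families

/-!
# MP_a068eb_an: jet determination and contact with complex hyperplanes

The definitions `IsProperHol`, `IsRational`, `DegLE`, `SameJet`, `JetDet`, `JetDetDeg` are in
`Pool.Agent.T6.H21.JD.Defs`; `JetDet n N k` says `k(n,N) ≤ k`.

Let `c(n,N)` be the largest order of contact, at a point of the ball, of a proper rational map from
the ball of `ℂⁿ` to the ball of `ℂᴺ` with a complex hyperplane that does not contain its image;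
`ContactLE n N k` says `c(n,N) ≤ k`.

* `c(n,N) ≤ k(n,N) ≤ c(n,2N)`.
* The order `k(n,N)` does not depend on the base point of the jets.
* Inside the class of the maps of degree at most `d` the best order is exactly `d`, for
  `1 ≤ d ≤ 2N-3` when `n = 2`, and for `d ≥ 1`, `d(n-1)+1 ≤ N` in general.
-/

open Metric Topology Pool.Agent.T6.H21.JD

namespace Pool.Agent.Results.MP_a068eb_an.ContactOrders

/-- If a proper rational map from the ball of `ℂⁿ` to the ball of `ℂᴺ` has contact of order larger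
than `k` with a complex hyperplane at a point `a` of the ball, then the hyperplane contains the
image.  (The hyperplane is `⟨v, w⟩ = c`; contact of order larger than `k` means that
`⟨v, f z⟩ - c = O(‖z - a‖ ^ (k + 1))` for `z → a`.) -/
def ContactLE (n N k : ℕ) : Prop :=
  ∀ f : EuclideanSpace ℂ (Fin n) → EuclideanSpace ℂ (Fin N), IsProperHol f → IsRational f →
    ∀ a : EuclideanSpace ℂ (Fin n), ‖a‖ < 1 → ∀ (v : EuclideanSpace ℂ (Fin N)) (c : ℂ),
      (fun z => inner ℂ v (f z) - c) =O[𝓝 a] (fun z => ‖z - a‖ ^ (k + 1)) →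
        ∀ z ∈ ball (0 : EuclideanSpace ℂ (Fin n)) 1, inner ℂ v (f z) = c

theorem contactLE_of_jetDet {n N k : ℕ} (hJ : JetDet n N k) : ContactLE n N k :=
  fun _ hf hfr _ ha v c hv => contact_interior hJ hf hfr ha v c hv

theorem jetDet_of_contactLE {n N k : ℕ} (hC : ContactLE n (N + N) k) : JetDet n N k := by
  apply jetDet_of_contact
  intro h hp hr v hO
  apply hC h hp hr 0 (by simp) v 0
  simpa using hO

lemma ball_norm {n N : ℕ} {g : EuclideanSpace ℂ (Fin n) → EuclideanSpace ℂ (Fin N)}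
    (hg : IsProperHol g) : ∀ z ∈ ball (0 : EuclideanSpace ℂ (Fin n)) 1, ‖g z‖ ≤ 1 := by
  intro z hz
  have := hg.2.1 z hz
  rw [mem_ball_zero_iff] at this
  exact this.le

lemma not_jetDetDeg {n N d k : ℕ} (h : Pair n N d k) : ¬ JetDetDeg n N d k := by
  obtain ⟨f, g, hf, hfd, hg, hgd, hj, z, hz, hne⟩ := h
  exact fun hJ => hne (hJ f g hf hfd hg hgd hj z hz)

lemma jetDetDeg_of_le {n N d k : ℕ} (hdk : d ≤ k) : JetDetDeg n N d k := by
  rintro f g hf ⟨Q, P, hQ, _, hP, h1⟩ hg _ hjet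
  exact upper hf hQ (fun j => (hP j).trans hdk) h1 hg.1 (ball_norm hg) hjet

theorem exact_two {N d k : ℕ} (hd : 1 ≤ d) (hN : d + 3 ≤ 2 * N) :
    JetDetDeg 2 N d k ↔ d ≤ k := by
  refine ⟨fun h => ?_, jetDetDeg_of_le⟩
  by_contra hcon
  push Not at hcon
  exact not_jetDetDeg (dangelo hd hN hcon) h

theorem exact_all {n N d k : ℕ} (hn : 2 ≤ n) (hd : 1 ≤ d) (hN : d * (n - 1) + 1 ≤ N) :
    JetDetDeg n N d k ↔ d ≤ k := by
  refine ⟨fun h => ?_, jetDetDeg_of_le⟩
  by_contra hcon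
  push Not at hcon
  obtain ⟨m, rfl⟩ : ∃ m, n = m + 1 := ⟨n - 1, by omega⟩
  rw [Nat.add_sub_cancel] at hN
  exact not_jetDetDeg (whitney hd hN hcon) h

theorem result :
    -- `c(n,N) ≤ k(n,N)`
    (∀ n N k : ℕ, JetDet n N k → ContactLE n N k) ∧
    -- `k(n,N) ≤ c(n,2N)`
    (∀ n N k : ℕ, ContactLE n (N + N) k → JetDet n N k) ∧
    -- the base point does not matter
    (∀ (n N k : ℕ) (a : EuclideanSpace ℂ (Fin n)), ‖a‖ < 1 → JetDet n N k →
      ∀ f g : EuclideanSpace ℂ (Fin n) → EuclideanSpace ℂ (Fin N),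
        IsProperHol f → IsRational f → IsProperHol g → IsRational g →
        (fun z => g z - f z) =O[𝓝 a] (fun z => ‖z - a‖ ^ (k + 1)) →
        ∀ z ∈ ball (0 : EuclideanSpace ℂ (Fin n)) 1, g z = f z) ∧
    -- the exact order inside the class of the maps of degree at most `d`
    (∀ N d k : ℕ, 1 ≤ d → d + 3 ≤ 2 * N → (JetDetDeg 2 N d k ↔ d ≤ k)) ∧
    (∀ n N d k : ℕ, 2 ≤ n → 1 ≤ d → d * (n - 1) + 1 ≤ N → (JetDetDeg n N d k ↔ d ≤ k)) :=
  ⟨fun _ _ _ h => contactLE_of_jetDet h, fun _ _ _ h => jetDet_of_contactLE h,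
    fun _ _ _ _ ha hJ _ _ hf hfr hg hgr hjet => basepoint hJ hf hfr hg hgr ha hjet,
    fun _ _ _ hd hN => exact_two hd hN, fun _ _ _ _ hn hd hN => exact_all hn hd hN⟩

end Pool.Agent.Results.MP_a068eb_an.ContactOrders
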