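import Mathlib
import Pool.Agent.T6.H51.JD.Main

/-!
# Proper rational maps of degree at most `d` are determined by their `d`-jets

A proper rational map of degree at most `d` from the ball of `ℂ^n` to the ball of `ℂ^N` is
determined by its `d`-jet at the origin, even among all holomorphic maps to the closed ball.
-/

set_option autoImplicit false

namespace Pool.Agent.Results.MP_a068eb_an.DegreeBound

open Metric Topology MvPolynomial Asymptotics

/-- `f` is a proper rational map from the unit ball of `ℂ^n` to the unit ball of `ℂ^N` (only the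
values of `f` on the open unit ball matter): it is holomorphic, it maps ball to ball, preimages of
compact sets are compact, and every component is a quotient `P / q` of two polynomials. -/
structure IsProperRational {n N : ℕ}
    (f : EuclideanSpace ℂ (Fin n) → EuclideanSpace ℂ (Fin N)) : Prop where
  holomorphic : DifferentiableOn ℂ f (ball 0 1)
  mapsTo : ∀ z ∈ ball (0 : EuclideanSpace ℂ (Fin n)) 1,
    f z ∈ ball (0 : EuclideanSpace ℂ (Fin N)) 1
  proper : ∀ K ⊆ ball (0 : EuclideanSpace ℂ (Fin N)) 1, IsCompact K →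
    IsCompact (ball (0 : EuclideanSpace ℂ (Fin n)) 1 ∩ f ⁻¹' K)
  rational : ∀ j, ∃ P q : MvPolynomial (Fin n) ℂ, q ≠ 0 ∧
    ∀ z ∈ ball (0 : EuclideanSpace ℂ (Fin n)) 1,
      eval (fun i => z i) q * f z j = eval (fun i => z i) P

/-- `f` and `g` have the same `k`-jet at the origin: `f z - g z = O(‖z‖ ^ (k + 1))` for `z → 0`.
(For holomorphic maps this says that all partial derivatives up to order `k` agree at `0`.) -/
def SameJet (k : ℕ) {n N : ℕ} (f g : EuclideanSpace ℂ (Fin n) → EuclideanSpace ℂ (Fin N)) : Prop :=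
  (fun z => f z - g z) =O[𝓝 0] fun z => ‖z‖ ^ (k + 1)

/-- `f` is of degree at most `d` on the ball: `f = P / q` with polynomials `P j` and `q ≠ 0` of
degree at most `d`. -/
def HasDegreeLE (d : ℕ) {n N : ℕ}
    (f : EuclideanSpace ℂ (Fin n) → EuclideanSpace ℂ (Fin N)) : Prop :=
  ∃ (P : Fin N → MvPolynomial (Fin n) ℂ) (q : MvPolynomial (Fin n) ℂ), q ≠ 0 ∧
    q.totalDegree ≤ d ∧ (∀ j, (P j).totalDegree ≤ d) ∧
    ∀ z ∈ ball (0 : EuclideanSpace ℂ (Fin n)) 1, ∀ j,
      eval (fun i => z i) q * f z j = eval (fun i => z i) (P j)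

/-- A proper rational map `f` of degree at most `d` agrees with every holomorphic map `g` from the
ball to the closed ball which has the same `d`-jet at the origin. -/
theorem result {n N d : ℕ} (f g : EuclideanSpace ℂ (Fin n) → EuclideanSpace ℂ (Fin N))
    (hf : IsProperRational f) (hd : HasDegreeLE d f) (hg : DifferentiableOn ℂ g (ball 0 1))
    (hg1 : ∀ z ∈ ball (0 : EuclideanSpace ℂ (Fin n)) 1, ‖g z‖ ≤ 1) (hjet : SameJet d f g) :
    ∀ z ∈ ball (0 : EuclideanSpace ℂ (Fin n)) 1, f z = g z := by
  obtain ⟨P, q, hq, -, hP, hPq⟩ := hd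
  exact Pool.Agent.T6.H51.JD.upper ⟨hf.holomorphic, hf.mapsTo, hf.proper⟩ hg hg1 P q hq hP hPq hjet

end Pool.Agent.Results.MP_a068eb_an.DegreeBound
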