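import Mathlib
import Pool.Agent.T6.H51.JD.Main

/-!
# Proper rational maps between balls which are not determined by low jets

`k(2, N) ≥ 2 N - 3` and `k(n, N) ≥ ⌊(N - 1) / (n - 1)⌋` for `n ≥ 3`.
-/

set_option autoImplicit false

namespace Pool.Agent.Results.MP_a068eb_an.LowerBound

open Metric Topology MvPolynomial Asymptotics

/-- `f` is a proper rational map from the unit ball of `ℂ^n` to the unit ball of `ℂ^N` (only the
values of `f` on the open unit ball matter): it is holomorphic, it maps ball to ball, preimages of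
compact sets are compact, and every component is a quotient `P / q` of two polynomials. -/
structure IsProperRational {n N : ℕ}
    (f : EuclideanSpace ℂ (Fin n) → EuclideanSpace ℂ (Fin N)) : Prop where
  holomorphic : DifferentiableOn ℂ f (ball 0 1)
  mapsTo : ∀ z ∈ ball (0 : EuclideanSpace ℂ (Fin n)) 1,
    f z ∈ ball (0 : EuclideanSpace ℂ (Fin N)) 1
  proper : ∀ K ⊆ ball (0 : EuclideanSpace ℂ (Fin N)) 1, IsCompact K →
    IsCompact (ball (0 : EuclideanSpace ℂ (Fin n)) 1 ∩ f ⁻¹' K)
  rational : ∀ j, ∃ P q : MvPolynomial (Fin n) ℂ, q ≠ 0 ∧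
    ∀ z ∈ ball (0 : EuclideanSpace ℂ (Fin n)) 1,
      eval (fun i => z i) q * f z j = eval (fun i => z i) P

/-- `f` and `g` have the same `k`-jet at the origin: `f z - g z = O(‖z‖ ^ (k + 1))` for `z → 0`.
(For holomorphic maps this says that all partial derivatives up to order `k` agree at `0`.) -/
def SameJet (k : ℕ) {n N : ℕ} (f g : EuclideanSpace ℂ (Fin n) → EuclideanSpace ℂ (Fin N)) : Prop :=
  (fun z => f z - g z) =O[𝓝 0] fun z => ‖z‖ ^ (k + 1)

/-- Every proper rational map from the ball of `ℂ^n` to the ball of `ℂ^N` is determined by its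
`k`-jet at the origin. -/
def Determined (n N k : ℕ) : Prop :=
  ∀ f g : EuclideanSpace ℂ (Fin n) → EuclideanSpace ℂ (Fin N), IsProperRational f →
    IsProperRational g → SameJet k f g →
    ∀ z ∈ ball (0 : EuclideanSpace ℂ (Fin n)) 1, f z = g z

/-- If every proper rational map from the ball of `ℂ^n` to the ball of `ℂ^N` is determined by its
`k`-jet, then `k` is at least `2 N - 3` when `n = 2`, and at least `⌊(N - 1) / (n - 1)⌋` when
`n ≥ 3`. -/
theorem result (n N k : ℕ) (hn : 2 ≤ n) (hN : n ≤ N) (h : Determined n N k) :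
    (if n = 2 then 2 * N - 3 else (N - 1) / (n - 1)) ≤ k := by
  have hdet : Pool.Agent.T6.H51.JD.Det n N k := by
    intro f g hf hg hfP hgP hO
    refine h f g ⟨hf.holo, hf.maps, hf.proper, fun j => ?_⟩
      ⟨hg.holo, hg.maps, hg.proper, fun j => ?_⟩ hO
    · obtain ⟨P, hP⟩ := hfP j
      refine ⟨P, 1, one_ne_zero, fun z _ => ?_⟩
      rw [map_one, one_mul, hP]
    · obtain ⟨P, hP⟩ := hgP j
      refine ⟨P, 1, one_ne_zero, fun z _ => ?_⟩
      rw [map_one, one_mul, hP]
  by_cases h2 : n = 2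
  · rw [if_pos h2]
    subst h2
    obtain ⟨r, rfl⟩ : ∃ r, N = r + 2 := ⟨N - 2, by omega⟩
    have := Pool.Agent.T6.H51.JD.lowB hdet
    omega
  · rw [if_neg h2]
    obtain ⟨n1, rfl⟩ : ∃ n1, n = n1 + 1 := ⟨n - 1, by omega⟩
    rw [Nat.add_sub_cancel]
    have hn1 : 0 < n1 := by omega
    refine Pool.Agent.T6.H51.JD.lowA (n1 := n1) (N := N) ?_ ?_ hdet
    · rw [Nat.le_div_iff_mul_le hn1]
      omega
    · have := Nat.div_mul_le_self (N - 1) n1
      omega

end Pool.Agent.Results.MP_a068eb_an.LowerBound
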